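import Mathlib

/-!
# Bounded-length Maker wins in the generalized van der Waerden game

For every finite set `S` of natural numbers Maker can build a copy `a S + b` (with `a ≥ 1`) in at
most `C (|S|)` moves, where the function `C` depends on the number of elements of `S` only.

Idea. For `K ≥ 0` let `B_K` be the set of the sums `∑ k_s s` with integer coefficients
`|k_s| ≤ K`. As `|B_K| ≤ (2 K + 1) ^ n`, there is a multiple `K` of `m` below a bound which depends
only on `m` and `n` with `|B_{K + m}| ≤ 2 |B_K|`. The copies `a S + b`, `1 ≤ a ≤ m`, `b ∈ B_K` lie in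
`B_{K + m}`, any two points lie in at most `n ^ 2` of them, and so the weak win criterion of Beck
applies to (a translate of) this family as soon as `m ≥ n ^ 2 2 ^ n`.
-/

set_option autoImplicit false

namespace Pool.Agent.Results.MP_3e1131_co.BoundedMoves

open Finset

/-! ## The game -/

/-- The set `X` contains a copy `a S + b` of `S`, for some integer `a ≥ 1` and some integer `b`. -/
def ContainsCopy (S : Finset ℕ) (X : Set ℕ) : Prop :=
  ∃ a b : ℤ, 1 ≤ a ∧ ∀ s ∈ S, ∃ x ∈ X, (x : ℤ) = a * (s : ℤ) + b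

/-- A strategy of Maker is a function `σ` giving his next number in terms of the list of the numbers
claimed by Breaker so far. If Breaker claims the numbers `β 0, β 1, β 2, ...` (in this order), then
`makerMove σ β i` is Maker's selection number `i` (counted from `0`). Maker moves first, so that it is
made after the selections `β 0, ..., β (i - 1)` of Breaker. -/
def makerMove (σ : List ℕ → ℕ) (β : ℕ → ℕ) (i : ℕ) : ℕ := σ ((List.range i).map β)

/-- All selections of Breaker are legal: he never claims a number claimed before by Maker or by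
himself. -/
def BreakerLegal (σ : List ℕ → ℕ) (β : ℕ → ℕ) : Prop :=
  ∀ i, (∀ j < i, β i ≠ β j) ∧ ∀ j ≤ i, β i ≠ makerMove σ β j

/-- The first `n` selections of Maker are legal: he never claims a number claimed before by Breaker
or by himself. -/
def MakerLegal (σ : List ℕ → ℕ) (β : ℕ → ℕ) (n : ℕ) : Prop :=
  ∀ i < n, (∀ j < i, makerMove σ β i ≠ β j) ∧ ∀ j < i, makerMove σ β i ≠ makerMove σ β j

/-- Maker has an `N`-move strategy for `S`: a strategy with which, against every legal play of
Breaker, Maker has claimed a copy of `S` after `n` legal selections, for some `n ≤ N`. -/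
def HasMoveStrategy (S : Finset ℕ) (N : ℕ) : Prop :=
  ∃ σ : List ℕ → ℕ, ∀ β : ℕ → ℕ, BreakerLegal σ β →
    ∃ n ≤ N, MakerLegal σ β n ∧ ContainsCopy S {x | ∃ i < n, makerMove σ β i = x}

/-! ## Beck's weak win criterion for families with a finite index set -/

section Beck

variable {ι : Type*} (I : Finset ι) (A : ι → Finset ℕ)

/-- the indices of the sets which are not blocked by Breaker -/
def alive (B : Finset ℕ) : Finset ι := by
  classical exact I.filter (fun i => Disjoint (A i) B)

lemma mem_alive (B : Finset ℕ) (i : ι) : i ∈ alive I A B ↔ i ∈ I ∧ Disjoint (A i) B := by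
  classical
  simp [alive]

/-- the weight of a set -/
noncomputable def wt (M : Finset ℕ) (i : ι) : ℝ := (1 / 2 : ℝ) ^ (A i \ M).card

lemma wt_pos (M : Finset ℕ) (i : ι) : 0 < wt A M i := by unfold wt; positivity

/-- the potential -/
noncomputable def pot (M B : Finset ℕ) : ℝ := ∑ i ∈ alive I A B, wt A M i

/-- the potential of a point -/
noncomputable def potAt (M B : Finset ℕ) (x : ℕ) : ℝ :=
  ∑ i ∈ alive I A B, if x ∈ A i then wt A M i else 0

lemma wt_insert {M : Finset ℕ} {x : ℕ} (hx : x ∉ M) (i : ι) :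
    wt A (insert x M) i = wt A M i + if x ∈ A i then wt A M i else 0 := by
  unfold wt
  by_cases h : x ∈ A i
  · rw [if_pos h]
    have h1 : A i \ M = insert x (A i \ insert x M) := by
      ext y
      simp only [mem_sdiff, mem_insert, not_or]
      constructor
      · rintro ⟨h1, h2⟩
        by_cases hyx : y = x
        · exact Or.inl hyx
        · exact Or.inr ⟨h1, hyx, h2⟩
      · rintro (rfl | ⟨h1, h2, h3⟩)
        · exact ⟨h, hx⟩
        · exact ⟨h1, h3⟩
    have h2 : x ∉ A i \ insert x M := by simp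
    rw [h1, card_insert_of_notMem h2, pow_succ]
    ring
  · rw [if_neg h, add_zero]
    congr 2
    ext y
    simp only [mem_sdiff, mem_insert, not_or]
    constructor
    · rintro ⟨h1, h2, h3⟩; exact ⟨h1, h3⟩
    · rintro ⟨h1, h2⟩
      exact ⟨h1, fun hyx => h (hyx ▸ h1), h2⟩

lemma pot_insert {M : Finset ℕ} (B : Finset ℕ) {x : ℕ} (hx : x ∉ M) :
    pot I A (insert x M) B = pot I A M B + potAt I A M B x := by
  unfold pot potAt
  rw [← sum_add_distrib]
  exact sum_congr rfl fun i _ => wt_insert A hx i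

/-- Breaker's move -/
lemma pot_breaker (M B : Finset ℕ) (y : ℕ) :
    pot I A M (insert y B) = pot I A M B - potAt I A M B y := by
  classical
  have h : alive I A (insert y B) = (alive I A B).filter (fun i => y ∉ A i) := by
    ext i
    simp only [mem_filter, mem_alive, disjoint_insert_right]
    tauto
  unfold pot potAt
  rw [h, sum_filter, ← sum_sub_distrib]
  refine sum_congr rfl fun i _ => ?_
  by_cases hy : y ∈ A i <;> simp [hy]

lemma potAt_insert {M : Finset ℕ} (B : Finset ℕ) {x y : ℕ} (hx : x ∉ M) :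
    potAt I A (insert x M) B y = potAt I A M B y +
      ∑ i ∈ alive I A B, if x ∈ A i ∧ y ∈ A i then wt A M i else 0 := by
  unfold potAt
  rw [← sum_add_distrib]
  refine sum_congr rfl fun i _ => ?_
  rw [wt_insert A hx i]
  by_cases h1 : x ∈ A i <;> by_cases h2 : y ∈ A i <;> simp [h1, h2]

lemma pair_le {D : ℕ} (hD : ∀ x y : ℕ, x ≠ y → (I.filter (fun i => x ∈ A i ∧ y ∈ A i)).card ≤ D)
    {M B : Finset ℕ} {x y : ℕ} (hxy : x ≠ y) (hx : x ∉ M) (hy : y ∉ M) :
    (∑ i ∈ alive I A B, if x ∈ A i ∧ y ∈ A i then wt A M i else 0) ≤ D / 4 := by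
  classical
  have h1 : ∀ i, x ∈ A i ∧ y ∈ A i → wt A M i ≤ 1 / 4 := by
    rintro i ⟨h1, h2⟩
    have h3 : 2 ≤ (A i \ M).card := by
      have : ({x, y} : Finset ℕ) ⊆ A i \ M := by
        intro z hz
        rw [mem_insert, mem_singleton] at hz
        rw [mem_sdiff]
        rcases hz with rfl | rfl
        · exact ⟨h1, hx⟩
        · exact ⟨h2, hy⟩
      calc 2 = ({x, y} : Finset ℕ).card := (card_pair hxy).symm
        _ ≤ _ := card_le_card this
    unfold wt
    calc (1 / 2 : ℝ) ^ (A i \ M).card ≤ (1 / 2) ^ 2 :=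
          pow_le_pow_of_le_one (by norm_num) (by norm_num) h3
      _ = 1 / 4 := by norm_num
  rw [← sum_filter]
  calc ∑ i ∈ (alive I A B).filter (fun i => x ∈ A i ∧ y ∈ A i), wt A M i
      ≤ ∑ i ∈ (alive I A B).filter (fun i => x ∈ A i ∧ y ∈ A i), (1 / 4 : ℝ) := by
        refine sum_le_sum fun i hi => h1 i (mem_filter.1 hi).2
    _ = ((alive I A B).filter (fun i => x ∈ A i ∧ y ∈ A i)).card * (1 / 4 : ℝ) := by
        rw [sum_const, nsmul_eq_mul]
    _ ≤ D * (1 / 4 : ℝ) := by
        refine mul_le_mul_of_nonneg_right ?_ (by norm_num)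
        have h2 : (alive I A B).filter (fun i => x ∈ A i ∧ y ∈ A i) ⊆
            I.filter (fun i => x ∈ A i ∧ y ∈ A i) := by
          intro i hi
          rw [mem_filter, mem_alive] at hi
          rw [mem_filter]
          exact ⟨hi.1.1, hi.2⟩
        exact_mod_cast (card_le_card h2).trans (hD x y hxy)
    _ = D / 4 := by ring

/-- the best free point of the board -/
lemma exists_best (V M B : Finset ℕ) : ∃ x : ℕ, (V \ (M ∪ B)).Nonempty →
    (x ∈ V \ (M ∪ B) ∧ ∀ y ∈ V \ (M ∪ B), potAt I A M B y ≤ potAt I A M B x) := by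
  by_cases h : (V \ (M ∪ B)).Nonempty
  · obtain ⟨x, hx, hm⟩ := exists_max_image (V \ (M ∪ B)) (potAt I A M B) h
    exact ⟨x, fun _ => ⟨hx, hm⟩⟩
  · exact ⟨0, fun h' => absurd h' h⟩

/-- Maker's choice -/
noncomputable def best (V M B : Finset ℕ) : ℕ := (exists_best I A V M B).choose

lemma best_spec {V M B : Finset ℕ} (h : (V \ (M ∪ B)).Nonempty) :
    best I A V M B ∈ V \ (M ∪ B) ∧
      ∀ y ∈ V \ (M ∪ B), potAt I A M B y ≤ potAt I A M B (best I A V M B) :=
  (exists_best I A V M B).choose_spec h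

/-- One round: Maker claims the best point `x` and Breaker claims any other unclaimed point `y`. -/
lemma round {V M B : Finset ℕ} {D : ℕ}
    (hD : ∀ x y : ℕ, x ≠ y → (I.filter (fun i => x ∈ A i ∧ y ∈ A i)).card ≤ D)
    (hV : ∀ i ∈ I, A i ⊆ V) (h : (V \ (M ∪ B)).Nonempty) {y : ℕ}
    (hy : y ∉ insert (best I A V M B) M ∪ B) {T : ℝ}
    (hT : T - (D : ℝ) / 8 * (V ∩ (M ∪ B)).card ≤ pot I A M B) :
    T - (D : ℝ) / 8 * (V ∩ (insert (best I A V M B) M ∪ insert y B)).card ≤
      pot I A (insert (best I A V M B) M) (insert y B) := by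
  classical
  obtain ⟨hx, hmax⟩ := best_spec I A h
  set x := best I A V M B with hxd
  rw [mem_sdiff, mem_union, not_or] at hx
  obtain ⟨hxV, hxM, hxB⟩ := hx
  rw [mem_union, mem_insert, not_or, not_or] at hy
  obtain ⟨⟨hyx, hyM⟩, hyB⟩ := hy
  rw [pot_breaker, pot_insert I A B hxM, potAt_insert I A B hxM]
  have hc1 : (V ∩ (M ∪ B)).card + 1 ≤ (V ∩ (insert x M ∪ insert y B)).card := by
    have h1 : insert x (V ∩ (M ∪ B)) ⊆ V ∩ (insert x M ∪ insert y B) := by
      intro z hz
      simp only [mem_insert, mem_inter, mem_union] at hz ⊢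
      rcases hz with rfl | ⟨h1, h2 | h2⟩
      · exact ⟨hxV, Or.inl (Or.inl rfl)⟩
      · exact ⟨h1, Or.inl (Or.inr h2)⟩
      · exact ⟨h1, Or.inr (Or.inr h2)⟩
    have h2 : x ∉ V ∩ (M ∪ B) := by simp [hxM, hxB]
    calc _ = (insert x (V ∩ (M ∪ B))).card := (card_insert_of_notMem h2).symm
      _ ≤ _ := card_le_card h1
  have hDn : (0 : ℝ) ≤ D := Nat.cast_nonneg D
  by_cases hyV : y ∈ V
  · have h1 : potAt I A M B y ≤ potAt I A M B x := by
      apply hmax
      rw [mem_sdiff, mem_union, not_or]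
      exact ⟨hyV, hyM, hyB⟩
    have h2 := pair_le I A hD (B := B) (Ne.symm hyx) hxM hyM
    have hc2 : (V ∩ (M ∪ B)).card + 2 ≤ (V ∩ (insert x M ∪ insert y B)).card := by
      have h1 : insert y (insert x (V ∩ (M ∪ B))) ⊆ V ∩ (insert x M ∪ insert y B) := by
        intro z hz
        simp only [mem_insert, mem_inter, mem_union] at hz ⊢
        rcases hz with rfl | rfl | ⟨h1, h2 | h2⟩
        · exact ⟨hyV, Or.inr (Or.inl rfl)⟩
        · exact ⟨hxV, Or.inl (Or.inl rfl)⟩
        · exact ⟨h1, Or.inl (Or.inr h2)⟩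
        · exact ⟨h1, Or.inr (Or.inr h2)⟩
      have h2 : x ∉ V ∩ (M ∪ B) := by simp [hxM, hxB]
      have h3 : y ∉ insert x (V ∩ (M ∪ B)) := by simp [hyM, hyB, hyx]
      calc _ = (insert y (insert x (V ∩ (M ∪ B)))).card := by
            rw [card_insert_of_notMem h3, card_insert_of_notMem h2]
        _ ≤ _ := card_le_card h1
    have hc3 : ((V ∩ (M ∪ B)).card : ℝ) + 2 ≤ (V ∩ (insert x M ∪ insert y B)).card := by
      exact_mod_cast hc2
    nlinarith
  · have h1 : potAt I A M B y = 0 := by
      unfold potAt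
      refine sum_eq_zero fun i hi => ?_
      rw [if_neg]
      intro h2
      exact hyV (hV i ((mem_alive I A B i).1 hi).1 h2)
    have h2 : (∑ i ∈ alive I A B, if x ∈ A i ∧ y ∈ A i then wt A M i else 0) = 0 := by
      refine sum_eq_zero fun i hi => ?_
      rw [if_neg]
      rintro ⟨_, h2⟩
      exact hyV (hV i ((mem_alive I A B i).1 hi).1 h2)
    have h3 : 0 ≤ potAt I A M B x := by
      unfold potAt
      refine sum_nonneg fun i _ => ?_
      split_ifs
      · exact (wt_pos A M i).le
      · exact le_rfl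
    have hc3 : ((V ∩ (M ∪ B)).card : ℝ) + 1 ≤ (V ∩ (insert x M ∪ insert y B)).card := by
      exact_mod_cast hc1
    rw [h1, h2]
    nlinarith

/-- The position (set of Maker, set of Breaker) in which Maker is to move, after the selections in the
list of Breaker, when Maker always takes the best point. -/
noncomputable def posn (V : Finset ℕ) (l : List ℕ) : Finset ℕ × Finset ℕ :=
  l.foldl (fun p y => (insert (best I A V p.1 p.2) p.1, insert y p.2)) (∅, ∅)

/-- Maker's strategy -/
noncomputable def strat (V : Finset ℕ) (l : List ℕ) : ℕ :=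
  best I A V (posn I A V l).1 (posn I A V l).2

lemma posn_succ (V : Finset ℕ) (β : ℕ → ℕ) (i : ℕ) :
    posn I A V ((List.range (i + 1)).map β) =
      (insert (makerMove (strat I A V) β i) (posn I A V ((List.range i).map β)).1,
        insert (β i) (posn I A V ((List.range i).map β)).2) := by
  unfold posn makerMove strat
  rw [List.range_succ, List.map_append, List.foldl_append]
  rfl

lemma posn_eq (V : Finset ℕ) (β : ℕ → ℕ) (i : ℕ) :
    (∀ x, x ∈ (posn I A V ((List.range i).map β)).1 ↔ ∃ j < i, makerMove (strat I A V) β j = x) ∧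
    (∀ x, x ∈ (posn I A V ((List.range i).map β)).2 ↔ ∃ j < i, β j = x) := by
  induction i with
  | zero => simp [posn]
  | succ i ih =>
    rw [posn_succ]
    constructor
    · intro x
      simp only [mem_insert, ih.1]
      constructor
      · rintro (rfl | ⟨j, hj, rfl⟩)
        · exact ⟨i, Nat.lt_succ_self i, rfl⟩
        · exact ⟨j, by omega, rfl⟩
      · rintro ⟨j, hj, rfl⟩
        rcases Nat.lt_succ_iff_lt_or_eq.1 hj with h | rfl
        · exact Or.inr ⟨j, h, rfl⟩
        · exact Or.inl rfl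
    · intro x
      simp only [mem_insert, ih.2]
      constructor
      · rintro (rfl | ⟨j, hj, rfl⟩)
        · exact ⟨i, Nat.lt_succ_self i, rfl⟩
        · exact ⟨j, by omega, rfl⟩
      · rintro ⟨j, hj, rfl⟩
        rcases Nat.lt_succ_iff_lt_or_eq.1 hj with h | rfl
        · exact Or.inr ⟨j, h, rfl⟩
        · exact Or.inl rfl

/-- **Weak win criterion** (Beck). -/
theorem weak_win {V : Finset ℕ} {D n : ℕ}
    (hD : ∀ x y : ℕ, x ≠ y → (I.filter (fun i => x ∈ A i ∧ y ∈ A i)).card ≤ D)
    (hV : ∀ i ∈ I, A i ⊆ V) (hn : ∀ i ∈ I, (A i).card ≤ n)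
    (hbig : (D : ℝ) / 8 * V.card < I.card * (1 / 2) ^ n) :
    ∃ σ : List ℕ → ℕ, ∀ β : ℕ → ℕ, BreakerLegal σ β →
      ∃ k ≤ V.card, MakerLegal σ β k ∧ ∃ i ∈ I, ∀ x ∈ A i, ∃ j < k, makerMove σ β j = x := by
  classical
  refine ⟨strat I A V, fun β hβ => ?_⟩
  set σ := strat I A V with hσ
  set P : ℕ → Finset ℕ × Finset ℕ := fun i => posn I A V ((List.range i).map β) with hP
  have hP1 : ∀ i x, x ∈ (P i).1 ↔ ∃ j < i, makerMove σ β j = x := fun i => (posn_eq I A V β i).1
  have hP2 : ∀ i x, x ∈ (P i).2 ↔ ∃ j < i, β j = x := fun i => (posn_eq I A V β i).2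
  have hS : ∀ i, P (i + 1) = (insert (makerMove σ β i) (P i).1, insert (β i) (P i).2) :=
    fun i => posn_succ I A V β i
  have hmv : ∀ i, makerMove σ β i = best I A V (P i).1 (P i).2 := fun i => rfl
  have h0 : (I.card : ℝ) * (1 / 2) ^ n ≤ pot I A ∅ ∅ := by
    unfold pot
    have h1 : alive I A ∅ = I := by
      ext i
      simp [mem_alive]
    rw [h1]
    calc (I.card : ℝ) * (1 / 2) ^ n = ∑ i ∈ I, (1 / 2 : ℝ) ^ n := by
          rw [sum_const, nsmul_eq_mul]
      _ ≤ ∑ i ∈ I, wt A ∅ i := by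
          refine sum_le_sum fun i hi => ?_
          unfold wt
          rw [sdiff_empty]
          exact pow_le_pow_of_le_one (by norm_num) (by norm_num) (hn i hi)
  set T : ℝ := (I.card : ℝ) * (1 / 2) ^ n with hT
  -- the invariant as long as the board is not exhausted
  have inv : ∀ i, (∀ j < i, (V \ ((P j).1 ∪ (P j).2)).Nonempty) →
      T - (D : ℝ) / 8 * (V ∩ ((P i).1 ∪ (P i).2)).card ≤ pot I A (P i).1 (P i).2 := by
    intro i
    induction i with
    | zero =>
      intro _
      have : P 0 = (∅, ∅) := by simp [hP, posn]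
      rw [this]
      simpa using h0
    | succ i ih =>
      intro h
      have h1 := ih fun j hj => h j (by omega)
      rw [hS i]
      simp only
      rw [hmv i]
      refine round I A hD hV (h i (by omega)) ?_ h1
      rw [mem_union, mem_insert, not_or, not_or, ← hmv i, hP1, hP2]
      refine ⟨⟨(hβ i).2 i le_rfl, ?_⟩, ?_⟩
      · rintro ⟨j, hj, h2⟩
        exact (hβ i).2 j hj.le h2.symm
      · rintro ⟨j, hj, h2⟩
        exact (hβ i).1 j hj h2.symm
  have legal : ∀ k, (∀ j < k, (V \ ((P j).1 ∪ (P j).2)).Nonempty) → MakerLegal σ β k ∧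
      (P k).1 ⊆ V ∧ (P k).1.card = k := by
    intro k
    induction k with
    | zero =>
      intro _
      have : P 0 = (∅, ∅) := by simp [hP, posn]
      rw [this]
      exact ⟨fun i hi => absurd hi (Nat.not_lt_zero i), by simp, by simp⟩
    | succ k ih =>
      intro h
      obtain ⟨h1, h2, h3⟩ := ih fun j hj => h j (by omega)
      obtain ⟨h4, -⟩ := best_spec I A (h k (by omega))
      rw [← hmv k, mem_sdiff, mem_union, not_or, hP2] at h4
      obtain ⟨h5, h6, h7⟩ := h4
      have h6' := h6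
      rw [hP1] at h6
      refine ⟨?_, ?_, ?_⟩
      · intro i hi
        rcases Nat.lt_succ_iff_lt_or_eq.1 hi with h8 | rfl
        · exact h1 i h8
        · exact ⟨fun j hj h8 => h7 ⟨j, hj, h8.symm⟩, fun j hj h8 => h6 ⟨j, hj, h8.symm⟩⟩
      · rw [hS k]
        exact insert_subset h5 h2
      · rw [hS k]
        simp only
        rw [card_insert_of_notMem h6', h3]
  by_cases hex : ∃ k, ¬ (V \ ((P k).1 ∪ (P k).2)).Nonempty
  · -- the board is exhausted at some time
    set k := Nat.find hex with hk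
    have hk1 : ¬ (V \ ((P k).1 ∪ (P k).2)).Nonempty := Nat.find_spec hex
    have hk2 : ∀ j < k, (V \ ((P j).1 ∪ (P j).2)).Nonempty := fun j hj => by
      by_contra h
      exact Nat.find_min hex hj h
    obtain ⟨h1, h2, h3⟩ := legal k hk2
    refine ⟨k, ?_, h1, ?_⟩
    · rw [← h3]
      exact card_le_card h2
    · have h4 := inv k hk2
      have h5 : ((V ∩ ((P k).1 ∪ (P k).2)).card : ℝ) ≤ V.card := by
        exact_mod_cast card_le_card inter_subset_left
      have hDn : (0 : ℝ) ≤ D := Nat.cast_nonneg D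
      have h6 : 0 < pot I A (P k).1 (P k).2 := by nlinarith
      have h7 : (alive I A (P k).2).Nonempty := by
        by_contra h
        rw [not_nonempty_iff_eq_empty] at h
        unfold pot at h6
        rw [h] at h6
        simp at h6
      obtain ⟨i, hi⟩ := h7
      rw [mem_alive] at hi
      refine ⟨i, hi.1, fun x hx => ?_⟩
      rw [← hP1]
      by_contra h8
      apply hk1
      refine ⟨x, ?_⟩
      rw [mem_sdiff, mem_union, not_or]
      exact ⟨hV i hi.1 hx, h8, disjoint_left.1 hi.2 hx⟩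
  · push Not at hex
    obtain ⟨h1, h2, h3⟩ := legal (V.card + 1) fun j _ => hex j
    have := card_le_card h2
    omega

end Beck

/-! ## Sums of the elements of `S` with small coefficients -/

section Sums

variable (S : Finset ℕ)

/-- the sums `∑ k_s s` with integer coefficients `|k_s| ≤ K` -/
noncomputable def sums (K : ℕ) : Finset ℤ := by
  classical
  exact (Fintype.piFinset fun _ : S => Finset.Icc (-(K : ℤ)) (K : ℤ)).image
    (fun k => ∑ s : S, k s * ((s : ℕ) : ℤ))

lemma mem_sums (K : ℕ) (v : ℤ) : v ∈ sums S K ↔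
    ∃ k : S → ℤ, (∀ s, -(K : ℤ) ≤ k s ∧ k s ≤ K) ∧ ∑ s : S, k s * ((s : ℕ) : ℤ) = v := by
  classical
  simp [sums, Fintype.mem_piFinset]

lemma card_sums (K : ℕ) : (sums S K).card ≤ (2 * K + 1) ^ S.card := by
  classical
  unfold sums
  refine card_image_le.trans ?_
  rw [Fintype.card_piFinset]
  simp only [Int.card_Icc, prod_const, card_univ, Fintype.card_coe]
  refine le_of_eq ?_
  congr 1
  omega

lemma sums_pos (K : ℕ) : 0 < (sums S K).card := by
  rw [card_pos]
  exact ⟨0, (mem_sums S K 0).2 ⟨fun _ => 0, fun _ => by simp, by simp⟩⟩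

lemma mem_sums_add {K m : ℕ} {a b : ℤ} (ha : 1 ≤ a) (ha' : a ≤ m) (hb : b ∈ sums S K) {s : ℕ}
    (hs : s ∈ S) : a * (s : ℤ) + b ∈ sums S (K + m) := by
  classical
  obtain ⟨k, hk, rfl⟩ := (mem_sums S K b).1 hb
  refine (mem_sums S (K + m) _).2 ⟨fun t => k t + if t = ⟨s, hs⟩ then a else 0, fun t => ?_, ?_⟩
  · have := hk t
    push_cast
    split_ifs <;> constructor <;> omega
  · simp only [add_mul, sum_add_distrib, ite_mul, zero_mul]
    rw [Finset.sum_ite_eq' univ (⟨s, hs⟩ : S) (fun t : S => a * ((t : ℕ) : ℤ))]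
    simp [add_comm]

/-- pigeonhole: there is a scale at which the set of sums does not grow too much -/
lemma exists_scale {m J : ℕ} (hJ : (2 * (J * m) + 1) ^ S.card < 2 ^ J) :
    ∃ j < J, (sums S (j * m + m)).card ≤ 2 * (sums S (j * m)).card := by
  by_contra h
  push Not at h
  have h1 : ∀ j ≤ J, 2 ^ j ≤ (sums S (j * m)).card := by
    intro j
    induction j with
    | zero =>
      intro _
      simpa using sums_pos S (0 * m)
    | succ j ih =>
      intro hj
      have h2 := ih (by omega)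
      have h3 := h j (by omega)
      have h4 : (j + 1) * m = j * m + m := by ring
      rw [h4, pow_succ]
      omega
  have h2 := h1 J le_rfl
  have h3 := card_sums S (J * m)
  omega

end Sums

lemma exists_J (n m : ℕ) : ∃ J : ℕ, (2 * (J * m) + 1) ^ n < 2 ^ J := by
  have h1 := tendsto_pow_const_div_const_pow_of_one_lt n (r := (2 : ℝ)) (by norm_num)
  have h2 : (0 : ℝ) < 1 / (2 * m + 1) ^ n := by positivity
  have h3 := (h1.eventually (gt_mem_nhds h2)).and (Filter.eventually_ge_atTop 1)
  obtain ⟨J, h4, h5⟩ := h3.exists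
  refine ⟨J, ?_⟩
  have h6 : ((2 * (J * m) + 1 : ℕ) : ℝ) ^ n < 2 ^ J := by
    rw [div_lt_div_iff₀ (by positivity) (by positivity), one_mul, ← mul_pow] at h4
    refine lt_of_le_of_lt ?_ h4
    refine pow_le_pow_left₀ (by positivity) ?_ n
    have : (1 : ℝ) ≤ J := by exact_mod_cast h5
    push_cast
    nlinarith
  exact_mod_cast h6

/-- For every finite set `S` of `n ≥ 1` natural numbers Maker can claim a copy `a S + b` of `S` in at
most `C n` moves. -/
theorem result : ∃ C : ℕ → ℕ, ∀ n, 1 ≤ n → ∀ S : Finset ℕ, S.card = n →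
    HasMoveStrategy S (C n) := by
  classical
  choose J hJ using fun n => exists_J n (n ^ 2 * 2 ^ n)
  refine ⟨fun n => (2 * (J n * (n ^ 2 * 2 ^ n)) + 1) ^ n, ?_⟩
  rintro n hn S rfl
  set n := S.card with hnS
  set m := n ^ 2 * 2 ^ n with hm
  obtain ⟨j, hj, hgrow⟩ := exists_scale S (hJ n)
  set K := j * m with hK
  -- a shift which makes all the sums nonnegative
  obtain ⟨c, hc⟩ : ∃ c : ℤ, ∀ v ∈ sums S (K + m), 0 ≤ v + c := by
    obtain ⟨c, hc⟩ := (sums S (K + m)).finite_toSet.bddBelow
    exact ⟨-c, fun v hv => by have := hc hv; omega⟩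
  set I : Finset (ℤ × ℤ) := Finset.Icc (1 : ℤ) m ×ˢ sums S K with hI
  set A : ℤ × ℤ → Finset ℕ := fun p => S.image fun s : ℕ => (p.1 * (s : ℤ) + p.2 + c).toNat with hA
  set V : Finset ℕ := (sums S (K + m)).image fun v => (v + c).toNat with hV
  have hnn : ∀ p ∈ I, ∀ s ∈ S, 0 ≤ p.1 * (s : ℤ) + p.2 + c := by
    rintro ⟨a, b⟩ hp s hs
    rw [hI, mem_product, Finset.mem_Icc] at hp
    exact hc _ (mem_sums_add S hp.1.1 hp.1.2 hp.2 hs)
  have hVI : ∀ p ∈ I, A p ⊆ V := by
    rintro ⟨a, b⟩ hp x hx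
    rw [hI, mem_product, Finset.mem_Icc] at hp
    rw [hA, mem_image] at hx
    obtain ⟨s, hs, rfl⟩ := hx
    exact mem_image.2 ⟨_, mem_sums_add S hp.1.1 hp.1.2 hp.2 hs, rfl⟩
  have hn' : ∀ p ∈ I, (A p).card ≤ n := fun p _ => card_image_le
  have hVc : V.card ≤ 2 * (sums S K).card := card_image_le.trans hgrow
  have hIc : I.card = m * (sums S K).card := by
    rw [hI, card_product, Int.card_Icc]
    congr 1
    omega
  have hD : ∀ x y : ℕ, x ≠ y → (I.filter (fun p => x ∈ A p ∧ y ∈ A p)).card ≤ n ^ 2 := by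
    intro x y hxy
    have h1 : I.filter (fun p => x ∈ A p ∧ y ∈ A p) ⊆ (S ×ˢ S).biUnion fun q =>
        I.filter (fun p => (x : ℤ) = p.1 * (q.1 : ℤ) + p.2 + c ∧
          (y : ℤ) = p.1 * (q.2 : ℤ) + p.2 + c) := by
      intro p hp
      rw [mem_filter] at hp
      obtain ⟨hp, hx, hy⟩ := hp
      rw [hA, mem_image] at hx hy
      obtain ⟨s, hs, hx⟩ := hx
      obtain ⟨t, ht, hy⟩ := hy
      rw [mem_biUnion]
      refine ⟨(s, t), mem_product.2 ⟨hs, ht⟩, mem_filter.2 ⟨hp, ?_, ?_⟩⟩
      · have := hnn p hp s hs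
        simp only
        omega
      · have := hnn p hp t ht
        simp only
        omega
    refine (card_le_card h1).trans ?_
    refine (card_biUnion_le_card_mul _ _ 1 ?_).trans ?_
    · rintro ⟨s, t⟩ _
      rw [card_le_one]
      intro p hp q hq
      rw [mem_filter] at hp hq
      obtain ⟨_, hp1, hp2⟩ := hp
      obtain ⟨_, hq1, hq2⟩ := hq
      simp only at hp1 hp2 hq1 hq2
      have h2 : (p.1 - q.1) * ((s : ℤ) - t) = 0 := by linarith
      rcases mul_eq_zero.1 h2 with h3 | h3
      · have h4 : p.1 = q.1 := by linarith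
        have h5 : p.2 = q.2 := by rw [h4] at hp1; linarith
        exact Prod.ext h4 h5
      · exfalso
        apply hxy
        have h4 : (s : ℤ) = t := by linarith
        rw [h4] at hp1
        have : (x : ℤ) = y := by linarith
        exact_mod_cast this
    · rw [card_product, mul_one]
      exact le_of_eq (by rw [← hnS]; ring)
  have hbig : ((n ^ 2 : ℕ) : ℝ) / 8 * V.card < I.card * (1 / 2) ^ n := by
    have h1 : (V.card : ℝ) ≤ 2 * (sums S K).card := by exact_mod_cast hVc
    have h2 : (0 : ℝ) < (sums S K).card := by exact_mod_cast sums_pos S K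
    have h3 : (0 : ℝ) < (n : ℝ) ^ 2 := by
      have : (0 : ℝ) < n := by exact_mod_cast hn
      positivity
    rw [hIc, hm]
    push_cast
    have h4 : ((n : ℝ) ^ 2 * 2 ^ n * (sums S K).card) * (1 / 2) ^ n =
        (n : ℝ) ^ 2 * (sums S K).card := by
      have : (2 : ℝ) ^ n * (1 / 2) ^ n = 1 := by rw [← mul_pow]; norm_num
      calc _ = (n : ℝ) ^ 2 * (sums S K).card * ((2 : ℝ) ^ n * (1 / 2) ^ n) := by ring
        _ = _ := by rw [this, mul_one]
    rw [h4]
    have h5 : 0 < (n : ℝ) ^ 2 * (sums S K).card := mul_pos h3 h2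
    nlinarith
  obtain ⟨σ, hσ⟩ := weak_win I A hD hVI hn' hbig
  refine ⟨σ, fun β hβ => ?_⟩
  obtain ⟨k, hk, hlegal, p, hp, hall⟩ := hσ β hβ
  refine ⟨k, ?_, hlegal, ?_⟩
  · refine hk.trans (card_image_le.trans ((card_sums S (K + m)).trans ?_))
    rw [← hnS]
    refine Nat.pow_le_pow_left ?_ n
    have h1 : K + m ≤ J n * m := by
      rw [hK]
      calc j * m + m = (j + 1) * m := by ring
        _ ≤ J n * m := Nat.mul_le_mul_right m hj
    rw [← hm]
    omega
  · refine ⟨p.1, p.2 + c, ?_, fun s hs => ?_⟩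
    · rw [hI, mem_product, Finset.mem_Icc] at hp
      exact hp.1.1
    · refine ⟨(p.1 * (s : ℤ) + p.2 + c).toNat, ?_, ?_⟩
      · obtain ⟨i, hi, h1⟩ := hall (p.1 * (s : ℤ) + p.2 + c).toNat
          (by rw [hA]; exact mem_image.2 ⟨s, hs, rfl⟩)
        exact ⟨i, hi, h1⟩
      · have := hnn p hp s hs
        omega

end Pool.Agent.Results.MP_3e1131_co.BoundedMoves
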